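import Mathlib
import Pool.Agent.T2h17.CM.Big
import Pool.Agent.T2h17.CM.Cm
import Pool.Agent.T2h17.CM.Fc

/-!
# CM points of bounded degree of families of Calabi–Yau varieties near a large complex structure limit

Let `𝒱` be a polarised variation of Hodge structure of rank `n` and weight `k ≥ 3` over an open part of
the projective line, which comes from a family of varieties over `ℚ(x)`, with Hodge numbers
`h^{k,0} = 1`, `h^{k-1,1} = h ≥ 1` and arbitrary other Hodge numbers, for instance the middle cohomology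
of a family of Calabi–Yau varieties of dimension `k`. We suppose that `x = 0` is a large complex structure
limit: the logarithm `N` of the local monodromy satisfies `N^k ≠ 0` and has the ranks of a limit of
Hodge–Tate type, `rank N^{k-1} = 2`, `rank N^{k-2} = h + 2` (it has one Jordan block of size `k + 1`,
`h - 1` blocks of size `k - 1`, and the other blocks are smaller), and that the monodromy group is as
large as possible: the connected component of its Zariski closure is the symplectic group for odd `k`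
and the special orthogonal group for even `k`. The variation need not be hypergeometric and can have any number of
singularities. It is not of Shimura type, so by the André–Oort conjecture for variations of Hodge
structure it should have only finitely many CM points.

With respect to a basis of sections over `ℚ(x)` adapted to the Hodge filtration and to a basis of
flat sections for which `N` is rational, the period matrix is `H(x) x^N` with a matrix `H` of
G-functions with rational coefficients; the flat polarisation is given by a rational matrix `S` and its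
matrix with respect to the algebraic basis is `H S Hᵀ = B / p` with polynomials `B`, `p`. The rational
structure is given by an invertible matrix `C` (its entries are periods of the limiting mixed Hodge
structure). We only use that the logarithm of the monodromy at `x = 0` and, up to a factor, the
polarisation are rational.

We prove that the algebraic points `x = 1 / ξ` near `0`, with `ξ` of bounded degree and of height
polynomial in `|ξ|`, are not CM points, and that `F^k ⊂ F^{k-1}` are not both defined over number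
fields of bounded degree there, and deduce with Northcott's theorem that only for finitely many
algebraic integers `ξ` of bounded degree all fibres at the points `1 / ξ'` of a given disc
`|x| < 1 / R`, `ξ'` conjugate to `ξ`, have complex multiplication.

Proof. All polynomial relations of bounded degree over number fields of bounded degree between the
entries of `H(1 / ξ)` hold on the orbit of the group (by the theorem on values of G-functions at algebraic
points, projects of helper916 and others). If `F^k`, `F^{k-1}` are defined over the number field `K` then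
the quotient of `Q^{-1}(φ, φ)` by `q(v, v)` is in `K`, where `Q(w, w') = S(N^{k-2} w, w')` on `F^{k-1}`,
`φ(w) = S(N^{k-1} v, w)`, `q(v, v) = S(N^k v, v)` and `v` generates `F^k`, because the unknown scalars
(`2 π i`, the factor of the polarisation and the scalar of `v`) cancel. This is a relation
over `K`, but the group acts transitively on the isotropic flags (Witt), and there are isotropic flags
for which this quotient is any other number.
-/

set_option autoImplicit false

open PowerSeries

namespace Pool.Agent.Results.MP_2794d1_ag.AlgebraicPointsCM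

/-- an integer polynomial as a power series with rational coefficients -/
noncomputable def toQ (P : Polynomial ℤ) : PowerSeries ℚ :=
  ((P.map (Int.castRingHom ℚ) : Polynomial ℚ) : PowerSeries ℚ)

/-- the power series `P(u^e)` -/
noncomputable def atPow (e : ℕ) (P : Polynomial ℤ) : PowerSeries ℂ :=
  ((Polynomial.expand ℂ e (P.map (Int.castRingHom ℂ)) : Polynomial ℂ) : PowerSeries ℂ)

/-- the matrices `G_s` over `ℤ[x]` with `T^s y^(s) = G_s y` for all solutions `y` of `T y' = A y` -/
noncomputable def iter {r : ℕ} (T : Polynomial ℤ) (A : Fin r → Fin r → Polynomial ℤ) :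
    ℕ → Fin r → Fin r → Polynomial ℤ
  | 0 => fun i j => if i = j then 1 else 0
  | s + 1 => fun i j => T * Polynomial.derivative (iter T A s i j) + ∑ l, iter T A s i l * A l j -
      (s : Polynomial ℤ) * (Polynomial.derivative T * iter T A s i j)

/-- The system `T y' = A y` has a fundamental matrix of solutions of the form `u^(-M) ∑_n Φ_n(u) (log u)^n`
with `u^e = x` and convergent power series `Φ_n`: the point `0` is an ordinary point or a regular
singularity with rational exponents. -/
def QuasiUnipotent {r : ℕ} (T : Polynomial ℤ) (A : Fin r → Fin r → Polynomial ℤ) : Prop :=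
  ∃ (e M : ℕ) (K : ℝ) (Φ : Matrix (Fin r) (Fin r) (Polynomial (PowerSeries ℂ))), 1 ≤ e ∧ Φ.det ≠ 0 ∧
    (∀ i j n m, ‖coeff m ((Φ i j).coeff n)‖ ≤ K ^ (m + 1)) ∧
    ∀ i j n, atPow e T * (X * PowerSeries.derivative ℂ ((Φ i j).coeff n) +
        ((n : PowerSeries ℂ) + 1) * (Φ i j).coeff (n + 1) - (M : PowerSeries ℂ) * (Φ i j).coeff n) =
      (e : PowerSeries ℂ) * X ^ e * ∑ l, atPow e (A i l) * (Φ l j).coeff n

/-- `h_1, ..., h_r` are G-functions with rational coefficients which solve the differential system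
`T y' = A y`, with the conditions of Siegel and Galochkin, and the system is regular with rational
exponents at `0`. -/
structure GFamily {r : ℕ} (T : Polynomial ℤ) (A : Fin r → Fin r → Polynomial ℤ)
    (h : Fin r → PowerSeries ℚ) : Prop where
  /-- the denominator is not zero -/
  T_ne : T ≠ 0
  /-- the differential equations -/
  ode : ∀ i, toQ T * PowerSeries.derivative ℚ (h i) = ∑ j, toQ (A i j) * h j
  /-- the coefficients have geometric growth -/
  size : ∃ C : ℝ, ∀ i m, |((coeff m (h i) : ℚ) : ℝ)| ≤ C ^ (m + 1)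
  /-- the common denominators of the coefficients have geometric growth -/
  den : ∃ C : ℝ, ∀ m : ℕ, ∃ d : ℕ, 0 < d ∧ (d : ℝ) ≤ C ^ (m + 1) ∧
    ∀ i, ∀ j ≤ m, ∃ a : ℤ, (d : ℚ) * coeff j (h i) = a
  /-- Galochkin's condition: the common denominators of the matrices `G_s / s!` have geometric growth -/
  galochkin : ∃ C : ℝ, ∀ m : ℕ, ∃ d : ℕ, 0 < d ∧ (d : ℝ) ≤ C ^ (m + 1) ∧ ∀ s ≤ m, ∀ i j,
    ∃ H : Polynomial ℤ, (d : Polynomial ℤ) * iter T A s i j = (s.factorial : Polynomial ℤ) * H
  /-- the local exponents at `0` are rational and the singularity is regular -/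
  regular : QuasiUnipotent T A

/-- the entries of a matrix -/
def entries {n : ℕ} (H : Matrix (Fin n) (Fin n) (PowerSeries ℚ)) : Fin (n * n) → PowerSeries ℚ :=
  fun a => H (finProdFinEquiv.symm a).1 (finProdFinEquiv.symm a).2

/-- rational matrices as complex matrices -/
def toC {n : ℕ} (M : Matrix (Fin n) (Fin n) ℚ) : Matrix (Fin n) (Fin n) ℂ := M.map fun x : ℚ => (x : ℂ)

/-- `S` is the matrix of a flat form, alternating for odd `k` and symmetric for even `k`, and `N` is
the logarithm of the local monodromy `exp (2 π i N)`, an infinitesimal isometry; the matrix of the form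
with respect to the algebraic basis is `H S Hᵀ = B / p`, and `F^a` and `F^{k+1-a}` are orthogonal, where
`f a` is the dimension of `F^a`. -/
structure Polarised {n : ℕ} (k : ℕ) (f : ℕ → ℕ) (H : Matrix (Fin n) (Fin n) (PowerSeries ℚ))
    (S N : Matrix (Fin n) (Fin n) ℚ) (p : Polynomial ℚ) (B : Matrix (Fin n) (Fin n) (Polynomial ℚ)) :
    Prop where
  S_symm : (toC S).transpose = ((-1 : ℂ) ^ k) • toC S
  S_det : S.det ≠ 0
  N_inf : toC N * toC S + toC S * (toC N).transpose = 0
  p_ne : p ≠ 0
  B_det : B.det ≠ 0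
  form : (p : PowerSeries ℚ) • (H * S.map (PowerSeries.C (R := ℚ)) * H.transpose) =
    B.map fun f => (f : PowerSeries ℚ)
  isotropic : ∀ (a : ℕ) (i j : Fin n), a ≤ k + 1 → (i : ℕ) < f a → (j : ℕ) < f (k + 1 - a) → B i j = 0

/-- The point `x = 0` is a large complex structure limit: `N^{k+1} = 0`, `N^k ≠ 0`, and
`N^{k-1}` and `N^{k-2}` have the ranks `2` and `h + 2` (or more). -/
structure LargeComplexStructure {n : ℕ} (k h : ℕ) (N : Matrix (Fin n) (Fin n) ℚ) : Prop where
  nil : toC N ^ (k + 1) = 0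
  top : toC N ^ k ≠ 0
  rank_sec : (toC N ^ (k - 1)).rank ≤ 2
  rank_third : h + 2 ≤ (toC N ^ (k - 2)).rank

/-- the value of `H` at `z` -/
noncomputable def val {n : ℕ} (H : Matrix (Fin n) (Fin n) (PowerSeries ℚ)) (z : ℂ) :
    Matrix (Fin n) (Fin n) ℂ :=
  Matrix.of fun i j => ∑' k : ℕ, ((coeff k (H i j) : ℚ) : ℂ) * z ^ k

/-- The connected component of the Zariski closure of the monodromy group (equivalently, of the
differential Galois group) is the symplectic or the special orthogonal group: for some `ρ > 0` all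
polynomial relations `R(x, H(x)) = 0` over `ℚ[x]` between the entries of `H` hold at all points `z` of
the disc `|z| < ρ` with `p(z) ≠ 0`, `det B(z) ≠ 0` for all matrices `g` with `p(z) g S gᵀ = B(z)` and
`det g = det H(z)`. -/
def FullMonodromy {n : ℕ} (H : Matrix (Fin n) (Fin n) (PowerSeries ℚ)) (S : Matrix (Fin n) (Fin n) ℚ)
    (p : Polynomial ℚ) (B : Matrix (Fin n) (Fin n) (Polynomial ℚ)) : Prop :=
  ∃ ρ : ℝ, 0 < ρ ∧ ∀ R : MvPolynomial (Fin n × Fin n) (Polynomial ℚ),
    MvPolynomial.aeval (fun a : Fin n × Fin n => H a.1 a.2) R = 0 → ∀ z : ℂ, ‖z‖ < ρ →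
      Polynomial.aeval z p ≠ 0 → Polynomial.aeval z B.det ≠ 0 → ∀ g : Matrix (Fin n) (Fin n) ℂ,
      (Polynomial.aeval z p) • (g * toC S * g.transpose) = (B.map fun f => Polynomial.aeval z f) →
      g.det = (val H z).det →
      MvPolynomial.eval₂ (Polynomial.aeval z : Polynomial ℚ →ₐ[ℚ] ℂ).toRingHom (fun a => g a.1 a.2) R = 0

/-- The period matrix `H(x) x^N = H(x) exp (N log x)` at `x = 1 / ξ`, with the value `-l` of `log x`,
where `exp l = ξ`. -/
noncomputable def per {n : ℕ} (H : Matrix (Fin n) (Fin n) (PowerSeries ℚ)) (N : Matrix (Fin n) (Fin n) ℚ)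
    (ξ l : ℂ) : Matrix (Fin n) (Fin n) ℂ :=
  val H (1 / ξ) * ∑ a ∈ Finset.range n, ((-l) ^ a / (a.factorial : ℂ)) • toC N ^ a

/-- The base change `C` from the flat basis to a rational basis is a polarised rational structure: the
logarithm `2 π i C⁻¹ N C` of the local monodromy is rational and the flat form is proportional to a
rational form on rows, `(v C⁻¹) S (w C⁻¹)ᵀ = κ v P wᵀ`. -/
structure RationalStructure {n : ℕ} (S N : Matrix (Fin n) (Fin n) ℚ) (C : Matrix (Fin n) (Fin n) ℂ) :
    Prop where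
  det : C.det ≠ 0
  log : ∃ M : Matrix (Fin n) (Fin n) ℚ, C * toC M = (2 * (Real.pi : ℂ) * Complex.I) • (toC N * C)
  form : ∃ (P : Matrix (Fin n) (Fin n) ℚ) (κ : ℂ), C⁻¹ * toC S * (C⁻¹).transpose = κ • toC P

/-- The step `F^p` of the Hodge filtration at the point `x = 1 / ξ` in the rational coordinates: the
span of the first `f p` rows of the period matrix. -/
noncomputable def F {n : ℕ} (f : ℕ → ℕ) (H : Matrix (Fin n) (Fin n) (PowerSeries ℚ))
    (N : Matrix (Fin n) (Fin n) ℚ) (ξ l : ℂ) (C : Matrix (Fin n) (Fin n) ℂ) (p : ℕ) :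
    Submodule ℂ (Fin n → ℂ) :=
  Submodule.span ℂ {v | ∃ i : Fin n, (i : ℕ) < f p ∧ v = (per H N ξ l * C) i}

/-- a subspace spanned by vectors with coordinates in `K` -/
def DefinedOver {n : ℕ} (K : IntermediateField ℚ ℂ) (W : Submodule ℂ (Fin n → ℂ)) : Prop :=
  ∃ s : Set (Fin n → K), W = Submodule.span ℂ ((fun x i => ((x i : K) : ℂ)) '' s)

/-- Complex multiplication: there is a rational endomorphism with separable characteristic polynomial
which preserves the filtration, that is, the algebra of endomorphisms of the Hodge structure contains a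
commutative semisimple algebra of the maximal dimension. -/
def HasCM {n : ℕ} (F : ℕ → Submodule ℂ (Fin n → ℂ)) : Prop :=
  ∃ a : Matrix (Fin n) (Fin n) ℚ, a.charpoly.Separable ∧
    ∀ p, ∀ v ∈ F p, Matrix.vecMul v (toC a) ∈ F p

/-- `ξ` is a root of a nonzero integral polynomial of degree at most `g` with coefficients of size at
most `|ξ|^A` -/
def Height (g A : ℕ) (ξ : ℂ) : Prop :=
  ∃ p : Polynomial ℤ, p ≠ 0 ∧ p.natDegree ≤ g ∧ (∀ j, |(p.coeff j : ℝ)| ≤ ‖ξ‖ ^ A) ∧
    Polynomial.aeval ξ p = 0

theorem iter_eq {r : ℕ} (T : Polynomial ℤ) (A : Fin r → Fin r → Polynomial ℤ) (s : ℕ) :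
    iter T A s = Pool.Agent.Y120.GH.itm T A s := by
  induction s with
  | zero => rfl
  | succ s ih =>
    funext i j
    rw [iter, Pool.Agent.Y120.GH.itm, ih]

theorem qu_eq {r : ℕ} {T : Polynomial ℤ} {A : Fin r → Fin r → Polynomial ℤ} (h : QuasiUnipotent T A) :
    Pool.Agent.Y120.GH.QU0 T A := by
  obtain ⟨e, M, K, Φ, he, hdet, hc, heq⟩ := h
  have he0 : e ≠ 0 := by omega
  refine ⟨e, he0, M, K, Φ, hc, fun i j n => ?_, hdet⟩
  have h1 := heq i j n
  simp only [atPow] at h1
  rw [Pool.Agent.Y120.GH.expand_poly he0]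
  simp only [Pool.Agent.Y120.GH.expand_poly he0]
  exact h1

theorem gfam_eq {r : ℕ} {T : Polynomial ℤ} {A : Fin r → Fin r → Polynomial ℤ}
    {h : Fin r → PowerSeries ℚ} (hG : GFamily T A h) : Pool.Agent.Y916.Af.GFam T A h where
  hT := hG.T_ne
  hode := hG.ode
  hsize := hG.size
  hden := hG.den
  hgal := by
    obtain ⟨C, hC⟩ := hG.galochkin
    refine ⟨C, fun m => ?_⟩
    obtain ⟨d, h1, h2, h3⟩ := hC m
    refine ⟨d, h1, h2, fun s hs i' j' => ?_⟩
    rw [← iter_eq]
    exact h3 s hs i' j'
  hqu := qu_eq hG.regular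

theorem per_eq {n : ℕ} (H : Matrix (Fin n) (Fin n) (PowerSeries ℚ)) (N : Matrix (Fin n) (Fin n) ℚ)
    (ξ l : ℂ) (C : Matrix (Fin n) (Fin n) ℂ) : per H N ξ l * C =
      Pool.Agent.T2h17.CM.Hz H (1 / ξ) *
        (Pool.Agent.Y119.HY.E (Pool.Agent.T2h17.CM.toC N) (-l) * C) := by
  unfold per
  rw [Matrix.mul_assoc]
  rfl

/-- the step `F^p` as the span of the first rows -/
theorem F_eq {n : ℕ} (f : ℕ → ℕ) (H : Matrix (Fin n) (Fin n) (PowerSeries ℚ))
    (N : Matrix (Fin n) (Fin n) ℚ) (ξ l : ℂ) (C : Matrix (Fin n) (Fin n) ℂ) {p m : ℕ} (hm : f p = m)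
    (hmn : m ≤ n) : F f H N ξ l C p =
      Submodule.span ℂ (Set.range fun i : Fin m => (per H N ξ l * C) (Fin.castLE hmn i)) := by
  unfold F
  congr 1
  ext v
  constructor
  · rintro ⟨i, hi, rfl⟩
    exact ⟨⟨i, hm ▸ hi⟩, rfl⟩
  · rintro ⟨i, rfl⟩
    exact ⟨Fin.castLE hmn i, by rw [hm]; exact i.2, rfl⟩

/-- Let `k ≥ 3`, let `H` be an `n × n` matrix of G-functions with rational coefficients, polarised of
weight `k` by `S`, `N`, `p`, `B`, with `dim F^a = f a`, `h^{k,0} = f k = 1` and
`h^{k-1,1} = f (k - 1) - 1 = h ≥ 1`, with a large complex structure limit at `x = 0` and full monodromy.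
Then for all `g`, `A` and `D` there is `E` such that for all algebraic numbers `ξ` of degree `≤ g` and
height bounded by a power of `|ξ|` (with the exponent `A`), `|ξ| ≥ E`, all logarithms `l` of `ξ` and all
polarised rational structures `C`: the steps `F^k` and `F^{k-1}` at the point `x = 1 / ξ` are not both
defined over a number field of degree at most `D`, and the point does not have complex multiplication.
Moreover, for all `g`, `D` and `R` there are only finitely many algebraic integers `ξ` of degree `≤ g`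
such that for every conjugate `ξ'` of absolute value greater than `R` the fibre at `1 / ξ'` has, for some
logarithm and some polarised rational structure, complex multiplication or the two steps defined over a
number field of degree at most `D`. -/
theorem result {n k h : ℕ} (hk : 3 ≤ k) (hh : 1 ≤ h) (hn : k + 1 ≤ n) (f : ℕ → ℕ) (hf : Antitone f)
    (hf1 : f k = 1) (hf2 : f (k - 1) = h + 1) (T : Polynomial ℤ)
    (A : Fin (n * n) → Fin (n * n) → Polynomial ℤ)
    (H : Matrix (Fin n) (Fin n) (PowerSeries ℚ)) (hG : GFamily T A (entries H))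
    (S N : Matrix (Fin n) (Fin n) ℚ) (p : Polynomial ℚ) (B : Matrix (Fin n) (Fin n) (Polynomial ℚ))
    (hP : Polarised k f H S N p B) (hL : LargeComplexStructure k h N) (hM : FullMonodromy H S p B) :
    (∀ g A D : ℕ, ∃ E : ℕ, ∀ ξ l : ℂ, Height g A ξ → (E : ℝ) ≤ ‖ξ‖ → Complex.exp l = ξ →
      ∀ C : Matrix (Fin n) (Fin n) ℂ, RationalStructure S N C →
      (∀ K : IntermediateField ℚ ℂ, FiniteDimensional ℚ K → Module.finrank ℚ K ≤ D →
        ¬ (DefinedOver K (F f H N ξ l C k) ∧ DefinedOver K (F f H N ξ l C (k - 1)))) ∧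
      ¬ HasCM (F f H N ξ l C)) ∧
    ∀ (g D : ℕ) (R : ℝ), {ξ : ℂ | IsIntegral ℤ ξ ∧ (minpoly ℚ ξ).natDegree ≤ g ∧
      ∀ ξ' : ℂ, Polynomial.aeval ξ' (minpoly ℚ ξ) = 0 → R < ‖ξ'‖ →
        ∃ (l : ℂ) (C : Matrix (Fin n) (Fin n) ℂ), Complex.exp l = ξ' ∧
          RationalStructure S N C ∧ (HasCM (F f H N ξ' l C) ∨
            ∃ K : IntermediateField ℚ ℂ, FiniteDimensional ℚ K ∧ Module.finrank ℚ K ≤ D ∧
            DefinedOver K (F f H N ξ' l C k) ∧ DefinedOver K (F f H N ξ' l C (k - 1)))}.Finite := by
  obtain ⟨q, rfl⟩ : ∃ q, k = q + 3 := ⟨k - 3, by omega⟩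
  obtain ⟨t, rfl⟩ : ∃ t, h = t + 1 := ⟨h - 1, by omega⟩
  have hpi : (2 * (Real.pi : ℂ) * Complex.I) ≠ 0 := Complex.two_pi_I_ne_zero
  have hSd : (Pool.Agent.T2h17.CM.toC S).det ≠ 0 := by
    have h1 : (Pool.Agent.T2h17.CM.toC S).det = ((S.det : ℚ) : ℂ) :=
      ((Rat.castHom ℂ).map_det S).symm
    rw [h1]
    exact_mod_cast hP.S_det
  have htn : t + 2 ≤ n := by
    have h1 := hL.rank_third
    have h2 := Matrix.rank_le_width (toC N ^ (q + 3 - 2))
    omega
  have h1n : 1 ≤ n := by omega
  set ι : Fin (t + 2) → Fin n := Fin.castLE htn with hι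
  have hιi : Function.Injective ι := Fin.castLE_injective htn
  have hiso : ∀ i j, B (ι i) (ι j) = 0 := by
    intro i j
    have hi := i.2
    have hj := j.2
    have hf2' : f (q + 2) = t + 2 := hf2
    refine hP.isotropic (q + 2) (ι i) (ι j) (by omega) ?_ ?_
    · show (i : ℕ) < f (q + 2)
      omega
    · show (j : ℕ) < f (q + 3 + 1 - (q + 2))
      have h1 : q + 3 + 1 - (q + 2) = 2 := by omega
      rw [h1]
      have h2 : f (q + 2) ≤ f 2 := hf (by omega)
      omega
  -- vectors
  have key : ∀ g A D : ℕ, ∃ t0 : ℕ, ∀ ξ l : ℂ, (t0 : ℝ) ≤ ‖ξ‖ → Height g A ξ →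
      ∀ C : Matrix (Fin n) (Fin n) ℂ, RationalStructure S N C →
      ∀ K : IntermediateField ℚ ℂ, FiniteDimensional ℚ K → Module.finrank ℚ K ≤ D →
      ¬ (DefinedOver K (F f H N ξ l C (q + 3)) ∧ DefinedOver K (F f H N ξ l C (q + 2))) := by
    intro g A D
    obtain ⟨t0, ht0⟩ := Pool.Agent.T2h17.CM.no_flag' (H := H) (p := p) (S := S) (NQ := N) (B := B)
      (q := q) (t := t) hn (ι 0) ι hιi rfl
      (Pool.Agent.Y916.Af.nrh_of_gfam (gfam_eq hG)) hG.size hP.S_symm hSd hP.N_inf hL.nil hL.top
      hL.rank_sec hL.rank_third hP.p_ne hP.B_det hP.form hM hiso g A D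
    refine ⟨t0, fun ξ l hξ hht C hC K hK hKD hF => ?_⟩
    obtain ⟨hdet, ⟨M, hM⟩, P, κ, hQ⟩ := hC
    have hu : IsUnit C.det := isUnit_iff_ne_zero.2 hdet
    have hPP : toC S = κ • (C * toC P * C.transpose) := by
      have h1 : C * C⁻¹ = 1 := Matrix.mul_nonsing_inv _ hu
      have h2 : (C⁻¹).transpose * C.transpose = 1 := by
        rw [← Matrix.transpose_mul, h1, Matrix.transpose_one]
      calc toC S = (C * C⁻¹) * toC S * ((C⁻¹).transpose * C.transpose) := by
            rw [h1, h2, Matrix.one_mul, Matrix.mul_one]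
        _ = C * (C⁻¹ * toC S * (C⁻¹).transpose) * C.transpose := by simp only [Matrix.mul_assoc]
        _ = κ • (C * toC P * C.transpose) := by rw [hQ, Matrix.mul_smul, Matrix.smul_mul]
    obtain ⟨⟨s1, hs1⟩, ⟨s2, hs2⟩⟩ := hF
    rw [F_eq f H N ξ l C hf1 h1n] at hs1
    rw [F_eq f H N ξ l C (show f (q + 2) = t + 2 from hf2) htn] at hs2
    obtain ⟨y, e1, he1⟩ := Pool.Agent.T2h17.CM.span_vectors K hs1
    obtain ⟨x, e, he⟩ := Pool.Agent.T2h17.CM.span_vectors K hs2
    refine ht0 ξ (-l) hξ hht K hK hKD C M P _ κ hpi hM hPP (y 0) (e1 0 0) x e ?_ ?_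
    · have h3 := he1 0
      rw [per_eq] at h3
      have h4 : Fin.castLE h1n 0 = ι 0 := Fin.ext rfl
      rw [h4] at h3
      rw [h3]
      funext j
      rw [Fin.sum_univ_one]
    · intro i
      have h3 := he i
      rw [per_eq] at h3
      exact h3
  -- complex multiplication
  have nocm : ∀ g A : ℕ, ∃ t0 : ℕ, ∀ ξ l : ℂ, (t0 : ℝ) ≤ ‖ξ‖ → Height g A ξ →
      ∀ C : Matrix (Fin n) (Fin n) ℂ, RationalStructure S N C → ¬ HasCM (F f H N ξ l C) := by
    intro g A
    obtain ⟨t0, ht0⟩ := key g A (n ^ n)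
    refine ⟨t0, fun ξ l hξ hht C hC hcm => ?_⟩
    obtain ⟨a, ha, hF⟩ := hcm
    obtain ⟨K, hK, hKD, hst⟩ := Pool.Agent.T2h17.CM.stable_defined a ha
    have hmap : toC a = Pool.Agent.Y119.HY.cm a := by
      ext i j
      rw [Pool.Agent.Y119.HY.cm_apply]
      rfl
    rw [hmap] at hF
    exact ht0 ξ l hξ hht C hC K hK hKD ⟨hst _ (hF (q + 3)), hst _ (hF (q + 2))⟩
  refine ⟨?_, ?_⟩
  · intro g A D
    obtain ⟨t1, h1⟩ := key g A D
    obtain ⟨t2, h2⟩ := nocm g A
    refine ⟨max t1 t2, fun ξ l hht hξ _ C hC => ?_⟩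
    have k1 : (t1 : ℝ) ≤ ‖ξ‖ := le_trans (by exact_mod_cast le_max_left t1 t2) hξ
    have k2 : (t2 : ℝ) ≤ ‖ξ‖ := le_trans (by exact_mod_cast le_max_right t1 t2) hξ
    exact ⟨fun K hK hKD => h1 ξ l k1 hht C hC K hK hKD, h2 ξ l k2 hht C hC⟩
  · intro g D R
    obtain ⟨t1, h1⟩ := key g (2 * g) D
    obtain ⟨t2, h2⟩ := nocm g (2 * g)
    refine Set.Finite.subset (Pool.Agent.T2h17.CM.finite_conj g (max t1 t2) R (fun ξ => ∀ (l : ℂ)
      (C : Matrix (Fin n) (Fin n) ℂ), RationalStructure S N C → ¬ HasCM (F f H N ξ l C) ∧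
        ∀ K : IntermediateField ℚ ℂ, FiniteDimensional ℚ K → Module.finrank ℚ K ≤ D →
        ¬ (DefinedOver K (F f H N ξ l C (q + 3)) ∧ DefinedOver K (F f H N ξ l C (q + 2)))) ?_) ?_
    · intro ξ hξ hht l C hC
      have k1 : (t1 : ℝ) ≤ ‖ξ‖ := le_trans (by exact_mod_cast le_max_left t1 t2) hξ
      have k2 : (t2 : ℝ) ≤ ‖ξ‖ := le_trans (by exact_mod_cast le_max_right t1 t2) hξ
      exact ⟨h2 ξ l k2 hht C hC, fun K hK hKD => h1 ξ l k1 hht C hC K hK hKD⟩
    · rintro ξ ⟨hint, hdeg, hall⟩
      refine ⟨hint, hdeg, fun ξ' hr h1' hP => ?_⟩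
      obtain ⟨l, C, -, hC, hcm | ⟨K, hK, hKD, hF1, hF2⟩⟩ := hall ξ' hr h1'
      · exact (hP l C hC).1 hcm
      · exact (hP l C hC).2 K hK hKD ⟨hF1, hF2⟩

end Pool.Agent.Results.MP_2794d1_ag.AlgebraicPointsCM
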