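import Mathlib
import Pool.Agent.T2h17.SC.Cmc
import Pool.Agent.T2h17.SC.Lcs

/-!
# CM points of bounded degree near a point with a special limiting mixed Hodge structure

Let `𝒱` be a polarised variation of Hodge structure of rank `n`, weight `k` and arbitrary Hodge numbers
over an open part of the projective line, which comes from a family of varieties over `ℚ(x)`, such
that the monodromy group is as large as possible: the connected component of its Zariski closure is
the symplectic group for odd `k` and the special orthogonal group for even `k`. (For `k ≥ 3` and at least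
three nonzero Hodge numbers it is not of Shimura type, so by the André–Oort conjecture for variations of
Hodge structure it should have only finitely many CM points.) The point `x = 0` can be any point of the
projective line: a point with a smooth fibre, or with finite or infinite local monodromy. With respect
to a basis of sections over `ℚ(x)` adapted to the Hodge filtration, the period matrix is
`H(x) exp(N log x) C`, where `H` is a matrix of G-functions with rational coefficients, `N` is a rational
matrix (the residue of the connection; `N = 0` for a smooth fibre) and `C` is the period matrix of the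
limiting mixed Hodge structure (of the fibre at `0`, if it is smooth).

We show: if the limiting mixed Hodge structure at `x = 0` is special, then the algebraic points
`x = 1 / ξ` near `0`, with `ξ` of bounded degree and of height polynomial in `|ξ|`, are not CM points,
and the isotropic step `F^a`, `k < 2 a`, of the Hodge filtration is not defined over a number field of
bounded degree there. With Northcott's theorem only for finitely many algebraic integers `ξ` of bounded
degree all fibres at the points `1 / ξ'` of a given disc `|x| < 1 / R`, `ξ'` conjugate to `ξ`, have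
complex multiplication. Special means one of the following (`r = dim F^a`):

* there is an invariant (`Invariant`): a rational function `f₀ / f₁` on the Grassmannian of `r`-dimensional
  subspaces, not constant on the isotropic ones, which is invariant under the local monodromy, and which
  is defined over a number field both with respect to the algebraic (de Rham) structure at `x = 0` and
  with respect to the rational structure. In other words the orbits of the Mumford–Tate group of the
  limit are not dense in the isotropic Grassmannian (if its invariants are algebraic);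
* the limiting mixed Hodge structure has complex multiplication by algebraic classes (`CMLimit`): some
  rational endomorphism `M` with separable characteristic polynomial, commuting with its adjoint, is given
  by a matrix over a number field in the de Rham realisation; for example the fibre at `0` is smooth and
  has complex multiplication of this kind, like the Fermat hypersurface in a pencil of hypersurfaces;
  here `2 r < n` if `k` is odd, and `r = 1`, `n ≥ 5` if `k` is even;
* `r = 1`, for instance `h^{k,0} = 1`, and the logarithm `2 π i ν` of the unipotent part of the local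
  monodromy satisfies `ν^5 ≠ 0` if `k` is odd, `ν^6 ≠ 0` if `k` is even (`DegenerateLimit`); for example a
  large complex structure limit of a family of Calabi–Yau varieties of dimension at least five. Nothing
  more is assumed on the limit.

The starting results and the result `AlgebraicPointsCM` concern the large complex structure limits. The
points with smooth fibres, finite monodromy or other degenerations, and arbitrary Hodge numbers, are new.

Proof. If `F^a` is defined over the number field `K`, the value of `f₀ / f₁` at the first `r` rows of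
`H(1 / ξ)` is in `K`. By the theorem on values of G-functions at algebraic points (projects of helper916
and others) this relation holds on the orbit of the group, and by Witt's theorem the group acts
transitively on the isotropic subspaces, so `f₀ / f₁` would be constant. In the case of complex
multiplication the `f_i` are the products of the opposite Plücker coordinates `p_I p_{τ I}` in a basis
of eigenvectors, in the last case `f₀ = q_j q_{j+4}`, `f₁ = q_{j+2}²`, `q_j(v) = S(ν^j v, v)`, where
`j = 1` or `j = 2`.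
-/

set_option autoImplicit false

open PowerSeries

namespace Pool.Agent.Results.MP_2794d1_ag.SpecialLimits

/-- an integer polynomial as a power series with rational coefficients -/
noncomputable def toQ (P : Polynomial ℤ) : PowerSeries ℚ :=
  ((P.map (Int.castRingHom ℚ) : Polynomial ℚ) : PowerSeries ℚ)

/-- the power series `P(u^e)` -/
noncomputable def atPow (e : ℕ) (P : Polynomial ℤ) : PowerSeries ℂ :=
  ((Polynomial.expand ℂ e (P.map (Int.castRingHom ℂ)) : Polynomial ℂ) : PowerSeries ℂ)

/-- the matrices `G_s` over `ℤ[x]` with `T^s y^(s) = G_s y` for all solutions `y` of `T y' = A y` -/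
noncomputable def iter {r : ℕ} (T : Polynomial ℤ) (A : Fin r → Fin r → Polynomial ℤ) :
    ℕ → Fin r → Fin r → Polynomial ℤ
  | 0 => fun i j => if i = j then 1 else 0
  | s + 1 => fun i j => T * Polynomial.derivative (iter T A s i j) + ∑ l, iter T A s i l * A l j -
      (s : Polynomial ℤ) * (Polynomial.derivative T * iter T A s i j)

/-- The system `T y' = A y` has a fundamental matrix of solutions of the form `u^(-M) ∑_n Φ_n(u) (log u)^n`
with `u^e = x` and convergent power series `Φ_n`: the point `0` is an ordinary point or a regular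
singularity with rational exponents. -/
def QuasiUnipotent {r : ℕ} (T : Polynomial ℤ) (A : Fin r → Fin r → Polynomial ℤ) : Prop :=
  ∃ (e M : ℕ) (K : ℝ) (Φ : Matrix (Fin r) (Fin r) (Polynomial (PowerSeries ℂ))), 1 ≤ e ∧ Φ.det ≠ 0 ∧
    (∀ i j n m, ‖coeff m ((Φ i j).coeff n)‖ ≤ K ^ (m + 1)) ∧
    ∀ i j n, atPow e T * (X * PowerSeries.derivative ℂ ((Φ i j).coeff n) +
        ((n : PowerSeries ℂ) + 1) * (Φ i j).coeff (n + 1) - (M : PowerSeries ℂ) * (Φ i j).coeff n) =
      (e : PowerSeries ℂ) * X ^ e * ∑ l, atPow e (A i l) * (Φ l j).coeff n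

/-- `h_1, ..., h_r` are G-functions with rational coefficients which solve the differential system
`T y' = A y`, with the conditions of Siegel and Galochkin, and the system is regular with rational
exponents at `0`. -/
structure GFamily {r : ℕ} (T : Polynomial ℤ) (A : Fin r → Fin r → Polynomial ℤ)
    (h : Fin r → PowerSeries ℚ) : Prop where
  /-- the denominator is not zero -/
  T_ne : T ≠ 0
  /-- the differential equations -/
  ode : ∀ i, toQ T * PowerSeries.derivative ℚ (h i) = ∑ j, toQ (A i j) * h j
  /-- the coefficients have geometric growth -/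
  size : ∃ C : ℝ, ∀ i m, |((coeff m (h i) : ℚ) : ℝ)| ≤ C ^ (m + 1)
  /-- the common denominators of the coefficients have geometric growth -/
  den : ∃ C : ℝ, ∀ m : ℕ, ∃ d : ℕ, 0 < d ∧ (d : ℝ) ≤ C ^ (m + 1) ∧
    ∀ i, ∀ j ≤ m, ∃ a : ℤ, (d : ℚ) * coeff j (h i) = a
  /-- Galochkin's condition: the common denominators of the matrices `G_s / s!` have geometric growth -/
  galochkin : ∃ C : ℝ, ∀ m : ℕ, ∃ d : ℕ, 0 < d ∧ (d : ℝ) ≤ C ^ (m + 1) ∧ ∀ s ≤ m, ∀ i j,
    ∃ H : Polynomial ℤ, (d : Polynomial ℤ) * iter T A s i j = (s.factorial : Polynomial ℤ) * H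
  /-- the local exponents at `0` are rational and the singularity is regular -/
  regular : QuasiUnipotent T A

/-- the entries of a matrix -/
def entries {n : ℕ} (H : Matrix (Fin n) (Fin n) (PowerSeries ℚ)) : Fin (n * n) → PowerSeries ℚ :=
  fun a => H (finProdFinEquiv.symm a).1 (finProdFinEquiv.symm a).2

/-- rational matrices as complex matrices -/
def toC {n : ℕ} (M : Matrix (Fin n) (Fin n) ℚ) : Matrix (Fin n) (Fin n) ℂ := M.map fun x : ℚ => (x : ℂ)

/-- `S` is the matrix of a flat form, alternating for odd `k` and symmetric for even `k`, and `N` is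
the residue of the connection at `0`, an infinitesimal isometry; the matrix of the form with respect to
the algebraic basis is `H S Hᵀ = B / p`, and `F^a` and `F^{k+1-a}` are orthogonal, where `f a` is the
dimension of `F^a`. -/
structure Polarised {n : ℕ} (k : ℕ) (f : ℕ → ℕ) (H : Matrix (Fin n) (Fin n) (PowerSeries ℚ))
    (S N : Matrix (Fin n) (Fin n) ℚ) (p : Polynomial ℚ) (B : Matrix (Fin n) (Fin n) (Polynomial ℚ)) :
    Prop where
  S_symm : (toC S).transpose = ((-1 : ℂ) ^ k) • toC S
  S_det : S.det ≠ 0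
  N_inf : toC N * toC S + toC S * (toC N).transpose = 0
  p_ne : p ≠ 0
  B_det : B.det ≠ 0
  form : (p : PowerSeries ℚ) • (H * S.map (PowerSeries.C (R := ℚ)) * H.transpose) =
    B.map fun f => (f : PowerSeries ℚ)
  isotropic : ∀ (a : ℕ) (i j : Fin n), a ≤ k + 1 → (i : ℕ) < f a → (j : ℕ) < f (k + 1 - a) → B i j = 0

/-- the value of `H` at `z` -/
noncomputable def val {n : ℕ} (H : Matrix (Fin n) (Fin n) (PowerSeries ℚ)) (z : ℂ) :
    Matrix (Fin n) (Fin n) ℂ :=
  Matrix.of fun i j => ∑' k : ℕ, ((coeff k (H i j) : ℚ) : ℂ) * z ^ k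

/-- The connected component of the Zariski closure of the monodromy group (equivalently, of the
differential Galois group) is the symplectic or the special orthogonal group: for some `ρ > 0` all
polynomial relations `R(x, H(x)) = 0` over `ℚ[x]` between the entries of `H` hold at all points `z` of
the disc `|z| < ρ` with `p(z) ≠ 0`, `det B(z) ≠ 0` for all matrices `g` with `p(z) g S gᵀ = B(z)` and
`det g = det H(z)`. -/
def FullMonodromy {n : ℕ} (H : Matrix (Fin n) (Fin n) (PowerSeries ℚ)) (S : Matrix (Fin n) (Fin n) ℚ)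
    (p : Polynomial ℚ) (B : Matrix (Fin n) (Fin n) (Polynomial ℚ)) : Prop :=
  ∃ ρ : ℝ, 0 < ρ ∧ ∀ R : MvPolynomial (Fin n × Fin n) (Polynomial ℚ),
    MvPolynomial.aeval (fun a : Fin n × Fin n => H a.1 a.2) R = 0 → ∀ z : ℂ, ‖z‖ < ρ →
      Polynomial.aeval z p ≠ 0 → Polynomial.aeval z B.det ≠ 0 → ∀ g : Matrix (Fin n) (Fin n) ℂ,
      (Polynomial.aeval z p) • (g * toC S * g.transpose) = (B.map fun f => Polynomial.aeval z f) →
      g.det = (val H z).det →
      MvPolynomial.eval₂ (Polynomial.aeval z : Polynomial ℚ →ₐ[ℚ] ℂ).toRingHom (fun a => g a.1 a.2) R = 0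

/-- The period matrix `H(x) exp(N log x) C` at `x = 1 / ξ`, with the value `-l` of `log x`, where
`exp l = ξ`. -/
noncomputable def per {n : ℕ} (H : Matrix (Fin n) (Fin n) (PowerSeries ℚ)) (N : Matrix (Fin n) (Fin n) ℚ)
    (ξ l : ℂ) (C : Matrix (Fin n) (Fin n) ℂ) : Matrix (Fin n) (Fin n) ℂ :=
  val H (1 / ξ) * NormedSpace.exp ((-l) • toC N) * C

/-- The base change `C` from the flat basis to a rational basis is a polarised rational structure: the
flat form is proportional to a rational form on rows, `(v C⁻¹) S (w C⁻¹)ᵀ = κ v P wᵀ`. -/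
structure RationalStructure {n : ℕ} (S : Matrix (Fin n) (Fin n) ℚ) (C : Matrix (Fin n) (Fin n) ℂ) :
    Prop where
  det : C.det ≠ 0
  form : ∃ (P : Matrix (Fin n) (Fin n) ℚ) (κ : ℂ), C⁻¹ * toC S * (C⁻¹).transpose = κ • toC P

/-- the value of a polynomial at a matrix with `r` rows -/
noncomputable def evl {n r : ℕ} {K : IntermediateField ℚ ℂ} (f : MvPolynomial (Fin r × Fin n) K)
    (X : Matrix (Fin r) (Fin n) ℂ) : ℂ :=
  MvPolynomial.aeval (fun a : Fin r × Fin n => X a.1 a.2) f

/-- `f 0 / f 1` is an invariant rational function on the Grassmannian of `r`-dimensional subspaces (the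
spans of the rows of the `r × n` matrices `X`), which is defined over the number field `K` in the flat
coordinates (by the `f i`) and in the rational coordinates (by the `g i`), and which is not constant on
the isotropic subspaces. -/
structure Invariant {n : ℕ} (r D : ℕ) (S N : Matrix (Fin n) (Fin n) ℚ) (C : Matrix (Fin n) (Fin n) ℂ)
    (K : IntermediateField ℚ ℂ) (f g : Fin 2 → MvPolynomial (Fin r × Fin n) K) : Prop where
  finite : FiniteDimensional ℚ K
  field : Module.finrank ℚ K ≤ D
  degree : ∀ i, (f i).totalDegree ≤ D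
  weight : ∃ e : ℕ, ∀ i (b : Matrix (Fin r) (Fin r) ℂ) X, evl (f i) (b * X) = b.det ^ e * evl (f i) X
  monodromy : ∀ s : ℂ, ∃ c : ℂ, c ≠ 0 ∧
    ∀ i X, evl (f i) (X * NormedSpace.exp (s • toC N)) = c * evl (f i) X
  betti : ∃ μ : ℂ, μ ≠ 0 ∧ ∀ i X, evl (f i) X = μ * evl (g i) (X * C)
  independent : ∀ α : Fin 2 → ℂ, α ≠ 0 → ∃ X : Matrix (Fin r) (Fin n) ℂ,
    LinearIndependent ℂ (fun i => X i) ∧ X * toC S * X.transpose = 0 ∧
      α 0 * evl (f 0) X + α 1 * evl (f 1) X ≠ 0

/-- a matrix over a subfield as a complex matrix -/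
def toK {n : ℕ} {K : IntermediateField ℚ ℂ} (A : Matrix (Fin n) (Fin n) K) : Matrix (Fin n) (Fin n) ℂ :=
  A.map fun x : K => (x : ℂ)

/-- The limiting mixed Hodge structure has complex multiplication: the endomorphism with the rational
matrix `M` and, in the flat coordinates, the matrix `A` over a number field of degree at most `D`, has a
separable characteristic polynomial, it commutes with its adjoint `S Aᵀ S⁻¹` and with the residue `N`. -/
def CMLimit {n : ℕ} (D : ℕ) (S N : Matrix (Fin n) (Fin n) ℚ) (C : Matrix (Fin n) (Fin n) ℂ) : Prop :=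
  ∃ (K : IntermediateField ℚ ℂ) (A : Matrix (Fin n) (Fin n) K) (M : Matrix (Fin n) (Fin n) ℚ),
    FiniteDimensional ℚ K ∧ Module.finrank ℚ K ≤ D ∧ M.charpoly.Separable ∧
    C * toC M = toK A * C ∧ toK A * toC N = toC N * toK A ∧
    toK A * (toC S * (toK A).transpose * (toC S)⁻¹) = toC S * (toK A).transpose * (toC S)⁻¹ * toK A

/-- The local monodromy is far from being finite: `2 π i C⁻¹ ν C` is rational, `ν` is nilpotent and
commutes with the residue, and `ν^5 ≠ 0` if `k` is odd, `ν^6 ≠ 0` if `k` is even. -/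
def DegenerateLimit {n : ℕ} (k : ℕ) (S N : Matrix (Fin n) (Fin n) ℚ) (C : Matrix (Fin n) (Fin n) ℂ) :
    Prop :=
  ∃ ν M : Matrix (Fin n) (Fin n) ℚ, toC ν * toC S + toC S * (toC ν).transpose = 0 ∧
    toC ν * toC N = toC N * toC ν ∧ C * toC M = (2 * (Real.pi : ℂ) * Complex.I) • (toC ν * C) ∧
    toC ν ^ n = 0 ∧ ((Odd k ∧ toC ν ^ 5 ≠ 0) ∨ (Even k ∧ toC ν ^ 6 ≠ 0))

/-- the limit at `x = 0` is special for the subspaces of dimension `r` -/
def Special {n : ℕ} (D k r : ℕ) (S N : Matrix (Fin n) (Fin n) ℚ) (C : Matrix (Fin n) (Fin n) ℂ) : Prop :=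
  (∃ K f g, Invariant r D S N C K f g) ∨
  (CMLimit D S N C ∧ ((Odd k ∧ 2 * r < n) ∨ (Even k ∧ r = 1 ∧ 5 ≤ n))) ∨
  (DegenerateLimit k S N C ∧ r = 1)

/-- The step `F^p` of the Hodge filtration at the point `x = 1 / ξ` in the rational coordinates: the
span of the first `f p` rows of the period matrix. -/
noncomputable def F {n : ℕ} (f : ℕ → ℕ) (H : Matrix (Fin n) (Fin n) (PowerSeries ℚ))
    (N : Matrix (Fin n) (Fin n) ℚ) (ξ l : ℂ) (C : Matrix (Fin n) (Fin n) ℂ) (p : ℕ) :
    Submodule ℂ (Fin n → ℂ) :=
  Submodule.span ℂ {v | ∃ i : Fin n, (i : ℕ) < f p ∧ v = per H N ξ l C i}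

/-- a subspace spanned by vectors with coordinates in `K` -/
def DefinedOver {n : ℕ} (K : IntermediateField ℚ ℂ) (W : Submodule ℂ (Fin n → ℂ)) : Prop :=
  ∃ s : Set (Fin n → K), W = Submodule.span ℂ ((fun x i => ((x i : K) : ℂ)) '' s)

/-- Complex multiplication: there is a rational endomorphism with separable characteristic polynomial
which preserves the filtration, that is, the algebra of endomorphisms of the Hodge structure contains a
commutative semisimple algebra of the maximal dimension. -/
def HasCM {n : ℕ} (F : ℕ → Submodule ℂ (Fin n → ℂ)) : Prop :=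
  ∃ a : Matrix (Fin n) (Fin n) ℚ, a.charpoly.Separable ∧
    ∀ p, ∀ v ∈ F p, Matrix.vecMul v (toC a) ∈ F p

/-- `ξ` is a root of a nonzero integral polynomial of degree at most `g` with coefficients of size at
most `|ξ|^A` -/
def Height (g A : ℕ) (ξ : ℂ) : Prop :=
  ∃ p : Polynomial ℤ, p ≠ 0 ∧ p.natDegree ≤ g ∧ (∀ j, |(p.coeff j : ℝ)| ≤ ‖ξ‖ ^ A) ∧
    Polynomial.aeval ξ p = 0

theorem iter_eq {r : ℕ} (T : Polynomial ℤ) (A : Fin r → Fin r → Polynomial ℤ) (s : ℕ) :
    iter T A s = Pool.Agent.Y120.GH.itm T A s := by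
  induction s with
  | zero => rfl
  | succ s ih =>
    funext i j
    rw [iter, Pool.Agent.Y120.GH.itm, ih]

theorem qu_eq {r : ℕ} {T : Polynomial ℤ} {A : Fin r → Fin r → Polynomial ℤ} (h : QuasiUnipotent T A) :
    Pool.Agent.Y120.GH.QU0 T A := by
  obtain ⟨e, M, K, Φ, he, hdet, hc, heq⟩ := h
  have he0 : e ≠ 0 := by omega
  refine ⟨e, he0, M, K, Φ, hc, fun i j n => ?_, hdet⟩
  have h1 := heq i j n
  simp only [atPow] at h1
  rw [Pool.Agent.Y120.GH.expand_poly he0]
  simp only [Pool.Agent.Y120.GH.expand_poly he0]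
  exact h1

theorem gfam_eq {r : ℕ} {T : Polynomial ℤ} {A : Fin r → Fin r → Polynomial ℤ}
    {h : Fin r → PowerSeries ℚ} (hG : GFamily T A h) : Pool.Agent.Y916.Af.GFam T A h where
  hT := hG.T_ne
  hode := hG.ode
  hsize := hG.size
  hden := hG.den
  hgal := by
    obtain ⟨C, hC⟩ := hG.galochkin
    refine ⟨C, fun m => ?_⟩
    obtain ⟨d, h1, h2, h3⟩ := hC m
    refine ⟨d, h1, h2, fun s hs i' j' => ?_⟩
    rw [← iter_eq]
    exact h3 s hs i' j'
  hqu := qu_eq hG.regular

theorem per_eq {n : ℕ} (H : Matrix (Fin n) (Fin n) (PowerSeries ℚ)) (N : Matrix (Fin n) (Fin n) ℚ)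
    (ξ l : ℂ) (C : Matrix (Fin n) (Fin n) ℂ) : per H N ξ l C =
      Pool.Agent.T2h17.CM.Hz H (1 / ξ) *
        (NormedSpace.exp ((-l) • Pool.Agent.T2h17.CM.toC N) * C) := by
  unfold per
  rw [Matrix.mul_assoc]
  rfl

/-- the step `F^p` as the span of the first rows -/
theorem F_eq {n : ℕ} (f : ℕ → ℕ) (H : Matrix (Fin n) (Fin n) (PowerSeries ℚ))
    (N : Matrix (Fin n) (Fin n) ℚ) (ξ l : ℂ) (C : Matrix (Fin n) (Fin n) ℂ) {p : ℕ}
    (hmn : f p ≤ n) : F f H N ξ l C p =
      Submodule.span ℂ (Set.range fun i : Fin (f p) => per H N ξ l C (Fin.castLE hmn i)) := by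
  unfold F
  congr 1
  ext v
  constructor
  · rintro ⟨i, hi, rfl⟩
    exact ⟨⟨i, hi⟩, rfl⟩
  · rintro ⟨i, rfl⟩
    exact ⟨Fin.castLE hmn i, i.2, rfl⟩

/-- special limits have invariants -/
theorem special_invt {n D k r : ℕ} {S N : Matrix (Fin n) (Fin n) ℚ} {C : Matrix (Fin n) (Fin n) ℂ}
    (hr : 1 ≤ r) (hS : (toC S).transpose = ((-1 : ℂ) ^ k) • toC S) (hSd : (toC S).det ≠ 0)
    (hN : toC N * toC S + toC S * (toC N).transpose = 0) (hC : RationalStructure S C)
    (h : Special D k r S N C) :
    ∃ (L : IntermediateField ℚ ℂ) (f g : Fin 2 → MvPolynomial (Fin r × Fin n) L),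
      Pool.Agent.T2h17.SC.Invt r (D + n ^ n + D * n ^ n + 2 * r + 4) (Pool.Agent.T2h17.CM.toC S)
        (Pool.Agent.T2h17.CM.toC N) C L f g := by
  obtain ⟨hdet, P, κ, hP⟩ := hC
  have mono : ∀ {D' : ℕ} {L : IntermediateField ℚ ℂ} {f g : Fin 2 → MvPolynomial (Fin r × Fin n) L},
      D' ≤ D + n ^ n + D * n ^ n + 2 * r + 4 →
      Pool.Agent.T2h17.SC.Invt r D' (Pool.Agent.T2h17.CM.toC S) (Pool.Agent.T2h17.CM.toC N) C L f g →
      Pool.Agent.T2h17.SC.Invt r (D + n ^ n + D * n ^ n + 2 * r + 4) (Pool.Agent.T2h17.CM.toC S)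
        (Pool.Agent.T2h17.CM.toC N) C L f g := by
    intro D' L f g hD hI
    exact ⟨hI.finite, hI.field.trans hD, fun i => (hI.degree i).trans hD, hI.weight, hI.monodromy,
      hI.betti, hI.independent⟩
  rcases h with ⟨K, f, g, hI⟩ | ⟨⟨K, A, M, h1, h2, h3, h4, h5, h6⟩, hcase⟩ |
    ⟨⟨ν, M, h1, h2, h3, h4, h5⟩, rfl⟩
  · refine ⟨K, f, g, mono (D' := D) (by omega) ⟨hI.finite, hI.field, hI.degree, hI.weight,
      hI.monodromy, hI.betti, hI.independent⟩⟩
  · obtain ⟨L, f, g, hI⟩ := Pool.Agent.T2h17.SC.cm_invt (r := r) (D := D) (k := k) (S := S) (P := P)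
      (N := toC N) hS hSd hN hdet hP h1 h2 h3 h4 h5 h6 (by
        rcases hcase with ⟨a, b⟩ | h
        · exact Or.inl ⟨a, hr, b⟩
        · exact Or.inr h)
    exact ⟨L, f, g, mono (by omega) hI⟩
  · obtain ⟨j, hj, htop⟩ : ∃ j, ((Odd k ∧ j = 1) ∨ (Even k ∧ j = 2)) ∧ toC ν ^ (j + 4) ≠ 0 := by
      rcases h5 with ⟨a, b⟩ | ⟨a, b⟩
      · exact ⟨1, Or.inl ⟨a, rfl⟩, b⟩
      · exact ⟨2, Or.inr ⟨a, rfl⟩, b⟩
    obtain ⟨L, f, g, hI⟩ := Pool.Agent.T2h17.SC.lcs_invt (k := k) (j := j) (S := S) (P := P) (NQ := ν)
      (M := M) (N := toC N) hS hSd hN hdet Complex.two_pi_I_ne_zero hP h1 h2 h3 hj h4 htop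
    exact ⟨L, f, g, mono (by omega) hI⟩

/-- Let `H` be an `n × n` matrix of G-functions with rational coefficients, polarised of weight `k` by
`S`, `N`, `p`, `B`, with `dim F^c = f c`, and with full monodromy. Let `k < 2 a`, `1 ≤ f a`, and
`2 (f a) < n` if `k` is even. Then for all `g`, `A` and `D` there is `E` such that for all algebraic
numbers `ξ` of degree `≤ g` and height bounded by a power of `|ξ|` (with the exponent `A`), `|ξ| ≥ E`, all
logarithms `l` of `ξ` and all polarised rational structures `C` for which the limit at `x = 0` is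
special: the step `F^a` at the point `x = 1 / ξ` is not defined over a number field of degree at most
`D`, and the point does not have complex multiplication. Moreover, for all `g`, `D` and `R` there are
only finitely many algebraic integers `ξ` of degree `≤ g` such that for every conjugate `ξ'` of absolute
value greater than `R` the fibre at `1 / ξ'` has, for some logarithm and some polarised rational structure
with a special limit, complex multiplication or the step `F^a` defined over a number field of degree at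
most `D`. -/
theorem result {n k : ℕ} (f : ℕ → ℕ) (hf : Antitone f) (T : Polynomial ℤ)
    (A : Fin (n * n) → Fin (n * n) → Polynomial ℤ)
    (H : Matrix (Fin n) (Fin n) (PowerSeries ℚ)) (hG : GFamily T A (entries H))
    (S N : Matrix (Fin n) (Fin n) ℚ) (p : Polynomial ℚ) (B : Matrix (Fin n) (Fin n) (Polynomial ℚ))
    (hP : Polarised k f H S N p B) (hM : FullMonodromy H S p B) (a : ℕ) (ha : k < 2 * a)
    (ha' : a ≤ k) (hfn : f a ≤ n) (hf1 : 1 ≤ f a) (hf2 : Even k → 2 * f a < n) :
    (∀ g A D : ℕ, ∃ E : ℕ, ∀ ξ l : ℂ, Height g A ξ → (E : ℝ) ≤ ‖ξ‖ → Complex.exp l = ξ →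
      ∀ C : Matrix (Fin n) (Fin n) ℂ, RationalStructure S C → Special D k (f a) S N C →
      (∀ K : IntermediateField ℚ ℂ, FiniteDimensional ℚ K → Module.finrank ℚ K ≤ D →
        ¬ DefinedOver K (F f H N ξ l C a)) ∧
      ¬ HasCM (F f H N ξ l C)) ∧
    ∀ (g D : ℕ) (R : ℝ), {ξ : ℂ | IsIntegral ℤ ξ ∧ (minpoly ℚ ξ).natDegree ≤ g ∧
      ∀ ξ' : ℂ, Polynomial.aeval ξ' (minpoly ℚ ξ) = 0 → R < ‖ξ'‖ →
        ∃ (l : ℂ) (C : Matrix (Fin n) (Fin n) ℂ), Complex.exp l = ξ' ∧
          RationalStructure S C ∧ Special D k (f a) S N C ∧ (HasCM (F f H N ξ' l C) ∨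
            ∃ K : IntermediateField ℚ ℂ, FiniteDimensional ℚ K ∧ Module.finrank ℚ K ≤ D ∧
            DefinedOver K (F f H N ξ' l C a))}.Finite := by
  have hSd : (Pool.Agent.T2h17.CM.toC S).det ≠ 0 := by
    have h1 : (Pool.Agent.T2h17.CM.toC S).det = ((S.det : ℚ) : ℂ) :=
      ((Rat.castHom ℂ).map_det S).symm
    rw [h1]
    exact_mod_cast hP.S_det
  set ι : Fin (f a) → Fin n := Fin.castLE hfn with hι
  have hιi : Function.Injective ι := Fin.castLE_injective hfn
  have hiso : ∀ i j, B (ι i) (ι j) = 0 := by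
    intro i j
    refine hP.isotropic a (ι i) (ι j) (by omega) i.2 ?_
    have h1 : f a ≤ f (k + 1 - a) := hf (by omega)
    exact lt_of_lt_of_le j.2 h1
  have key : ∀ g A D : ℕ, ∃ t0 : ℕ, ∀ ξ l : ℂ, (t0 : ℝ) ≤ ‖ξ‖ → Height g A ξ →
      ∀ C : Matrix (Fin n) (Fin n) ℂ, RationalStructure S C → Special D k (f a) S N C →
      (∀ K : IntermediateField ℚ ℂ, FiniteDimensional ℚ K → Module.finrank ℚ K ≤ D →
        ¬ DefinedOver K (F f H N ξ l C a)) ∧ ¬ HasCM (F f H N ξ l C) := by
    intro g A D
    set D' := D + n ^ n + D * n ^ n + 2 * f a + 4 with hD'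
    obtain ⟨t0, ht0⟩ := Pool.Agent.T2h17.SC.no_sub (k := k) (r := f a) (H := H) (p := p) (S := S)
      (NQ := N) (B := B) hf2 ι hιi (Pool.Agent.Y916.Af.nrh_of_gfam (gfam_eq hG)) hG.size hP.S_symm hSd
      hP.p_ne hP.B_det hP.form hM hiso g A D'
    refine ⟨t0, fun ξ l hξ hht C hC hsp => ?_⟩
    obtain ⟨L, f', g', hI⟩ := special_invt hf1 hP.S_symm hSd hP.N_inf hC hsp
    have base : ∀ K : IntermediateField ℚ ℂ, FiniteDimensional ℚ K → Module.finrank ℚ K ≤ D' →
        ¬ DefinedOver K (F f H N ξ l C a) := by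
      intro K hK hKD hF
      obtain ⟨s, hs⟩ := hF
      rw [F_eq f H N ξ l C hfn] at hs
      obtain ⟨x, e, he⟩ := Pool.Agent.T2h17.CM.span_vectors K hs
      refine ht0 ξ (-l) hξ hht C hC.det L f' g' hI K hK hKD x e (fun i => ?_)
      have h3 := he i
      rw [per_eq] at h3
      exact h3
    refine ⟨fun K hK hKD => base K hK (hKD.trans (by omega)), fun hcm => ?_⟩
    obtain ⟨c, hc, hF⟩ := hcm
    obtain ⟨K, hK, hKD, hst⟩ := Pool.Agent.T2h17.CM.stable_defined c hc
    have hmap : toC c = Pool.Agent.Y119.HY.cm c := by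
      ext i j
      rw [Pool.Agent.Y119.HY.cm_apply]
      rfl
    rw [hmap] at hF
    exact base K hK (hKD.trans (by omega)) (hst _ (hF a))
  refine ⟨?_, ?_⟩
  · intro g A D
    obtain ⟨t1, h1⟩ := key g A D
    exact ⟨t1, fun ξ l hht hξ _ C hC hsp => h1 ξ l hξ hht C hC hsp⟩
  · intro g D R
    obtain ⟨t1, h1⟩ := key g (2 * g) D
    refine Set.Finite.subset (Pool.Agent.T2h17.CM.finite_conj g t1 R (fun ξ => ∀ (l : ℂ)
      (C : Matrix (Fin n) (Fin n) ℂ), RationalStructure S C → Special D k (f a) S N C →
      (∀ K : IntermediateField ℚ ℂ, FiniteDimensional ℚ K → Module.finrank ℚ K ≤ D →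
        ¬ DefinedOver K (F f H N ξ l C a)) ∧ ¬ HasCM (F f H N ξ l C)) ?_) ?_
    · intro ξ hξ hht l C hC hsp
      exact h1 ξ l hξ hht C hC hsp
    · rintro ξ ⟨hint, hdeg, hall⟩
      refine ⟨hint, hdeg, fun ξ' hr h1' hP => ?_⟩
      obtain ⟨l, C, -, hC, hsp, hcm | ⟨K, hK, hKD, hF1⟩⟩ := hall ξ' hr h1'
      · exact (hP l C hC hsp).2 hcm
      · exact (hP l C hC hsp).1 K hK hKD hF1

end Pool.Agent.Results.MP_2794d1_ag.SpecialLimits
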